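import Pool.Agent.H88.Rv2

open Pool.Agent.H88.Rv

theorem Pool.Agent.Results.MP_f3b8e9_an.Counter.result :
    ∃ (Ω : Set ℂ) (n : ℕ) (a : ℕ → ℂ → ℂ) (φ : Fin n → (ℂ → ℂ) →ₗ[ℂ] ℂ),
      IsOpen Ω ∧ Convex ℝ Ω ∧ (0 : ℂ) ∈ Ω ∧ 1 ≤ n ∧ (∀ j, DifferentiableOn ℂ (a j) Ω) ∧
      (∀ k, IsFunctional Ω (φ k)) ∧ DeltaNeZero Ω n a φ ∧
      ∃ f, InDinf Ω n a φ f ∧ ¬ InCl Ω n a φ f := by
  refine ⟨Om, 2, 0, ph, Om_open, Om_convex, zero_mem, by norm_num,
    fun j => differentiableOn_const 0, fun k => ?_, ⟨0, ![fun _ => 1, fun z => z], fun k => ?_, ?_⟩,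
    ff, ff_dinf, ff_not_cl⟩
  · fin_cases k
    · exact ⟨{0}, by simpa using zero_mem, isCompact_singleton, 1, fun f _ M _ h => by
        simpa [ph] using h 0 rfl⟩
    · exact ⟨{(Real.pi : ℂ)}, by simpa using pi_mem, isCompact_singleton, 1, fun f _ M _ h => by
        simpa [ph] using h _ rfl⟩
  · fin_cases k
    · refine ⟨differentiableOn_const 1, fun z _ => ?_, fun p => ?_⟩
      · simp [ell_two, iteratedDeriv_succ]
      · fin_cases p <;> simp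
    · refine ⟨differentiableOn_id, fun z _ => ?_, fun p => ?_⟩
      · simp [ell_two, iteratedDeriv_succ]
      · fin_cases p <;> simp
  · simp [Matrix.det_fin_two, ph]
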